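import Pool.Agent.Q15.OP.BAKb
import Pool.Agent.Q103.OP.Defs

/-!
# Lemma BAK of the project OP of helper103 (helper15)
-/

set_option autoImplicit false

namespace Pool.Agent.Q15.OP

open Pool.Agent.H951R3.PB Pool.Agent.TH450.PC Pool.Agent.TH450.FG Pool.Agent.TH450.FH
open Pool.Agent.W277.UB

universe u v w

theorem t_BAK : Pool.Agent.Q103.OP.S_BAK.{u, v, w} := by
  intro k K _ _ _ _ _ Q d hd p q hp hq hpq hiso O hO H hH
  set f : Fin 2 → MvPolynomial (Fin 2) K := ![p.homogenize d, q.homogenize d] with hf
  have hf0 : f 0 = p.homogenize d := rfl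
  have hf1 : f 1 = q.homogenize d := rfl
  have hfh : ∀ i, (f i).IsHomogeneous d := by
    intro i
    fin_cases i
    · exact Polynomial.isHomogeneous_homogenize p
    · exact Polynomial.isHomogeneous_homogenize q
  have d0 : dh (f 0) = p := Polynomial.aeval_homogenize_X_one p hp
  have d1 : dh (f 1) = q := Polynomial.aeval_homogenize_X_one q hq.le
  have hq0 : q ≠ 0 := by
    rintro rfl
    simp at hq
    omega
  have hrs : rs f d ≠ 0 := by
    refine rs_ne_of_noZero (by omega) hfh ?_
    intro x hx
    have hx0 := hx 0
    have hx1 := hx 1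
    rw [MvPolynomial.aeval_def, ← MvPolynomial.eval_map] at hx0 hx1
    have hh : ∀ i, ((f i).map (algebraMap K (AlgebraicClosure K))).IsHomogeneous d :=
      fun i => (hfh i).map _
    have e0 : dh ((f 0).map (algebraMap K (AlgebraicClosure K))) =
        p.map (algebraMap K (AlgebraicClosure K)) := by rw [E1.map_dh, d0]
    have e1 : dh ((f 1).map (algebraMap K (AlgebraicClosure K))) =
        q.map (algebraMap K (AlgebraicClosure K)) := by rw [E1.map_dh, d1]
    by_cases h : x 1 = 0
    · rw [E1.eval_of_eq (hh 1) x h, e1, Polynomial.coeff_map] at hx1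
      have h2 : algebraMap K (AlgebraicClosure K) (q.coeff d) ≠ 0 := by
        rw [← hq]
        simpa using hq0
      have h3 : x 0 = 0 := by
        have h4 := (mul_eq_zero.1 hx1).resolve_left h2
        exact pow_eq_zero_iff (by omega) |>.1 h4
      funext i
      fin_cases i
      · exact h3
      · exact h
    · exfalso
      rw [E1.eval_of_ne (hh 0) x h, e0] at hx0
      rw [E1.eval_of_ne (hh 1) x h, e1] at hx1
      have g0 := (mul_eq_zero.1 hx0).resolve_right (pow_ne_zero _ h)
      have g1 := (mul_eq_zero.1 hx1).resolve_right (pow_ne_zero _ h)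
      obtain ⟨a, b, hab⟩ := hpq
      have h5 := congrArg (fun r => (r.map (algebraMap K (AlgebraicClosure K))).eval
        (x 0 / x 1)) hab
      simp only [Polynomial.map_add, Polynomial.map_mul, Polynomial.eval_add,
        Polynomial.eval_mul, g0, g1, mul_zero, add_zero, Polynomial.map_one,
        Polynomial.eval_one] at h5
      exact zero_ne_one h5
  exact bak_core Q d hd f hfh hrs (by rw [d1]; exact hq) (by rw [d0, d1]; exact hiso) O
    (by rw [d0, d1]; exact hO) H hH

end Pool.Agent.Q15.OP
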