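import Pool.Agent.TH450.FH.Core

/-!
# Points of bounded height with a bounded orbit (helper15, project OP of helper103)
-/

set_option autoImplicit false

namespace Pool.Agent.Q15.OP

open Pool.Agent.H951R3.PB Pool.Agent.TH450.PC Pool.Agent.TH450.FG Pool.Agent.TH450.FH Real Finset
open Pool.Agent.W277.UB
open Pool.Agent.W277.UH hiding wd

universe u v w

/-- comparison of the Green function with the norm -/
theorem gr_bd {L : Type u} [Field L] [IsAlgClosed L] {w : AbsoluteValue L ℝ}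
    (hw : IsNonarchimedean w) {F : (Fin 2 → L) → Fin 2 → L} {d : ℕ} (hd : 2 ≤ d) {r : ℝ}
    (h : Fib w F d r) {x : Fin 2 → L} (hx : x ≠ 0) :
    log (nrm w x) - (tt w F d r - Ssup w F) / (d - 1) ≤ Gr w F d x ∧
      Gr w F d x ≤ log (nrm w x) + Ssup w F / (d - 1) := by
  have hok : D1.Ok w F d (Ssup w F) (tt w F d r - Ssup w F) := by
    refine ⟨fun a x => fib_homog h a x, fun hx => fib_ne_zero h hx, ?_, ?_⟩
    · intro x hx
      exact B2_le h hx
    · intro x hx
      have := (fib_bounds_na w hw (by omega) h).2 x hx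
      linarith
  have h1 := hok.upper hd hx 0
  have h2 := hok.lower hd hx 0
  simp only [D1.an, Function.iterate_zero, id, pow_zero, div_one, one_mul] at h1 h2
  exact ⟨h2, h1⟩

theorem Ssup_le_zero {L : Type u} [Field L] {w : AbsoluteValue L ℝ} (hw : IsNonarchimedean w)
    {g : Fin 2 → MvPolynomial (Fin 2) L} (hg : ∀ i m, w ((g i).coeff m) ≤ 1) :
    Ssup w (ev g) ≤ 0 := by
  haveI : Nonempty {x : Fin 2 → L // nrm w x = 1} := ⟨⟨![1, 0], by simp [nrm]⟩⟩
  refine ciSup_le fun x => ?_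
  have hx0 : ∀ i, w (x.1 i) ≤ 1 := by
    intro i
    fin_cases i
    · exact (le_max_left _ _).trans_eq x.2
    · exact (le_max_right _ _).trans_eq x.2
  have h1 : nrm w (ev g x.1) ≤ 1 :=
    max_le (F2.eval_le w hw _ (hg 0) _ hx0) (F2.eval_le w hw _ (hg 1) _ hx0)
  exact Real.log_nonpos ((w.nonneg _).trans (le_max_left _ _)) h1

/-- good reduction: the Green function is the logarithm of the norm -/
theorem gr_good {L : Type u} [Field L] [IsAlgClosed L] {w : AbsoluteValue L ℝ}
    (hw : IsNonarchimedean w) {F : (Fin 2 → L) → Fin 2 → L} {d : ℕ} (hd : 2 ≤ d)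
    (h : Fib w F d 0) (hS : Ssup w F ≤ 0) {x : Fin 2 → L} (hx : x ≠ 0) :
    Gr w F d x = log (nrm w x) := by
  obtain ⟨h1, h2⟩ := gr_bd hw hd h hx
  have hdR : (2 : ℝ) ≤ d := by exact_mod_cast hd
  have h3 : (tt w F d 0 - Ssup w F) / ((d : ℝ) - 1) ≤ 0 := by
    apply div_nonpos_of_nonpos_of_nonneg _ (by linarith)
    unfold tt
    nlinarith
  have h4 : Ssup w F / ((d : ℝ) - 1) ≤ 0 :=
    div_nonpos_of_nonpos_of_nonneg hS (by linarith)
  linarith

theorem mm_good {L : Type u} [Field L] [IsAlgClosed L] {w : AbsoluteValue L ℝ}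
    {F : (Fin 2 → L) → Fin 2 → L} {d : ℕ} (hd : 2 ≤ d)
    (h : Fib w F d 0) (hS : Ssup w F ≤ 0) : mm w F d 0 ≤ 0 := by
  have hab : wd (![1, 0] : Fin 2 → L) ![0, 1] ≠ 0 := by simp [wd]
  have hab1 : wd (![1, 0] : Fin 2 → L) ![0, 1] = 1 := by simp [wd]
  have h1 := mm_le hd h hab
  have h2 : cr w d 0 (![1, 0] : Fin 2 → L) ![0, 1] = 0 := by
    unfold cr
    rw [hab1]
    simp
  have h3 : cj (![1, 0] : Fin 2 → L) ![0, 1] F = F := by
    funext x
    have h4 : emb (![1, 0] : Fin 2 → L) ![0, 1] x = x := by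
      funext i
      fin_cases i <;> simp [emb]
    unfold cj
    rw [h4]
    funext i
    fin_cases i <;> simp [coo, wd]
  rw [h2, h3] at h1
  refine h1.trans ?_
  unfold tt
  have hdR : (2 : ℝ) ≤ d := by exact_mod_cast hd
  nlinarith

theorem log_nrm_pole {k : Type v} {K : Type u} [Field k] [Field K] [Algebra k K]
    (Q : PlaceData.{w} k K) (v : Q.Pl) (w' : AbsoluteValue (AlgebraicClosure K) ℝ)
    (hw : Ext ((pfQ Q).V v) w') (z : K) :
    log (nrm w' (vL K ![z, 1])) = Q.pole v z := by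
  have h1 : nrm w' (vL K ![z, 1]) = max ((pfQ Q).V v z) 1 := by
    unfold nrm
    have e0 : (vL K ![z, 1]) 0 = algebraMap K (AlgebraicClosure K) z := by simp [vL]
    have e1 : (vL K ![z, 1]) 1 = 1 := by simp [vL]
    rw [e0, e1, hw z, map_one]
  rw [h1]
  by_cases hz : z = 0
  · subst hz
    rw [map_zero, PlaceData.pole_zero]
    simp
  · rw [PlaceData.pole_of_ne hz]
    have h2 : (pfQ Q).V v z = Real.exp (-(Q.ord v z : ℝ)) :=
      absO_apply (Q.ord v) (Q.ord_mul v) (Q.ord_add v) z hz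
    rw [h2]
    rcases le_total (-(Q.ord v z)) 0 with h | h
    · have h3 : Real.exp (-(Q.ord v z : ℝ)) ≤ 1 := by
        rw [Real.exp_le_one_iff]
        exact_mod_cast h
      rw [max_eq_right h3, max_eq_left h]
      simp
    · have h3 : 1 ≤ Real.exp (-(Q.ord v z : ℝ)) := by
        rw [Real.one_le_exp_iff]
        exact_mod_cast h
      rw [max_eq_left h3, max_eq_right h, Real.log_exp]
      push_cast
      ring

end Pool.Agent.Q15.OP
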