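import Pool.Agent.Q15.OP.BAKa

/-!
# Points of bounded height with a bounded orbit: the core (helper15, project OP of helper103)
-/

set_option autoImplicit false

namespace Pool.Agent.Q15.OP

open Pool.Agent.H951R3.PB Pool.Agent.TH450.PC Pool.Agent.TH450.FG Pool.Agent.TH450.FH Real Finset
open Pool.Agent.W277.UB
open Pool.Agent.W277.UH hiding wd

universe u v w

theorem bak_core {k : Type v} {K : Type u} [Field k] [Field K] [Algebra k K]
    [DecidableEq K] (Q : PlaceData.{w} k K) (d : ℕ) (hd : 2 ≤ d)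
    (f : Fin 2 → MvPolynomial (Fin 2) K) (hf : ∀ i, (f i).IsHomogeneous d) (h0 : rs f d ≠ 0)
    (hq : (dh (f 1)).natDegree = d) (hiso : ¬ ConjConst k (dh (f 0)) (dh (f 1)) d) (O : Set K)
    (hO : ∀ z ∈ O, (dh (f 1)).eval z ≠ 0 ∧ (dh (f 0)).eval z / (dh (f 1)).eval z ∈ O) (H : ℝ)
    (hH : ∀ z ∈ O, ∀ S : Finset Q.Pl, ∑ v ∈ S, (Q.wt v : ℝ) * Q.pole v z ≤ H) :
    O.Finite := by
  classical
  by_contra hinf
  have hinf : O.Infinite := hinf
  set p := dh (f 0) with hp
  set q := dh (f 1) with hqd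
  set fz : K → K := fun z => p.eval z / q.eval z with hfz
  set Q' := pfQ Q with hQ'
  choose w hw using fun v : Q.Pl => exists_ext_gen (Q'.V v) (Q'.na v)
  have hna : ∀ v, IsNonarchimedean (w v) := fun v => ext_na (Q'.na v) (hw v)
  have hfib := fun v => F4_fib (by omega : 1 ≤ d) hf h0 (w v)
  have hvne : ∀ z : K, (![z, 1] : Fin 2 → K) ≠ 0 := by
    intro z h
    have := congrFun h 1
    simp at this
  have hwt : ∀ v : Q.Pl, (0 : ℝ) < Q'.wt v := Q'.wt_pos
  have hdR : (2 : ℝ) ≤ d := by exact_mod_cast hd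
  have hpd : p.natDegree ≤ d := E1.natDegree_dh_le (hf 0)
  have hcop : IsCoprime p q := coprime_of_rs (by omega) hf h0
  -- the places of bad reduction
  have hS₀ : ∃ S₀ : Finset Q.Pl, ∀ v, v ∉ S₀ → Q.ord v (rs f d) = 0 ∧
      ∀ i m, (f i).coeff m ≠ 0 → Q.ord v ((f i).coeff m) = 0 := by
    have h1 : ({v | Q.ord v (rs f d) ≠ 0} ∪ ⋃ i : Fin 2, ⋃ m ∈ (f i).support,
        {v | Q.ord v ((f i).coeff m) ≠ 0}).Finite := by
      refine (Q.fin _ h0).union (Set.finite_iUnion fun i => ?_)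
      refine Set.Finite.biUnion (Finset.finite_toSet _) fun m hm => ?_
      exact Q.fin _ (by simpa using hm)
    refine ⟨h1.toFinset, fun v hv => ?_⟩
    rw [Set.Finite.mem_toFinset] at hv
    constructor
    · by_contra hcon
      exact hv (Or.inl hcon)
    · intro i m hm
      by_contra hcon
      refine hv (Or.inr ?_)
      simp only [Set.mem_iUnion]
      exact ⟨i, m, by simpa using hm, hcon⟩
  obtain ⟨S₀, hS₀⟩ := hS₀
  -- good reduction
  have hr0 : ∀ v, v ∉ S₀ → log (w v (rs (fL K f) d)) = 0 := by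
    intro v hv
    rw [F4_rs, hw v, pfQ_log Q v _ h0, (hS₀ v hv).1]
    simp
  have hSs : ∀ v, v ∉ S₀ → Ssup (w v) (ev (fL K f)) ≤ 0 := by
    intro v hv
    apply Ssup_le_zero (hna v)
    intro i m
    have h1 : (fL K f i).coeff m = algebraMap K (AlgebraicClosure K) ((f i).coeff m) := by
      simp [fL, MvPolynomial.coeff_map]
    rw [h1, hw v]
    by_cases hm : (f i).coeff m = 0
    · rw [hm, map_zero]
      exact zero_le_one
    · have h2 : Q'.V v ((f i).coeff m) = Real.exp (-(Q.ord v ((f i).coeff m) : ℝ)) :=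
        absO_apply (Q.ord v) (Q.ord_mul v) (Q.ord_add v) _ hm
      rw [h2, (hS₀ v hv).2 i m hm]
      simp
  set Lz : Q.Pl → K → ℝ := fun v z => Gr (w v) (ev (fL K f)) d (vL K ![z, 1]) with hLz
  have hLgood : ∀ v, v ∉ S₀ → ∀ z, Lz v z = Q.pole v z := by
    intro v hv z
    have h1 := hfib v
    rw [hr0 v hv] at h1
    have h2 := gr_good (hna v) hd h1 (hSs v hv) (F4_vL_ne (hvne z))
    rw [log_nrm_pole Q v (w v) (hw v) z] at h2
    exact h2
  set c : Q.Pl → ℝ := fun v => max |Ssup (w v) (ev (fL K f)) / ((d : ℝ) - 1)|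
    |(tt (w v) (ev (fL K f)) d (log (w v (rs (fL K f) d))) -
      Ssup (w v) (ev (fL K f))) / ((d : ℝ) - 1)| with hc
  have hLb : ∀ v z, |Lz v z - Q.pole v z| ≤ c v := by
    intro v z
    have h1 := gr_bd (hna v) hd (hfib v) (F4_vL_ne (hvne z))
    rw [log_nrm_pole Q v (w v) (hw v) z] at h1
    have h2 : Ssup (w v) (ev (fL K f)) / ((d : ℝ) - 1) ≤ c v :=
      (le_abs_self _).trans (le_max_left _ _)
    have h3 : (tt (w v) (ev (fL K f)) d (log (w v (rs (fL K f) d))) -
      Ssup (w v) (ev (fL K f))) / ((d : ℝ) - 1) ≤ c v :=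
      (le_abs_self _).trans (le_max_right _ _)
    have h4 : Lz v z = Gr (w v) (ev (fL K f)) d (vL K ![z, 1]) := rfl
    rw [← h4] at h1
    rw [abs_le]
    constructor <;> linarith [h1.1, h1.2]
  -- the global height
  have hpolefin : ∀ z : K, ∃ S : Finset Q.Pl, S₀ ⊆ S ∧ ∀ v, v ∉ S → Q.pole v z = 0 := by
    intro z
    by_cases hz : z = 0
    · exact ⟨S₀, subset_rfl, fun v _ => by rw [hz, PlaceData.pole_zero]⟩
    · refine ⟨S₀ ∪ (Q.fin z hz).toFinset, Finset.subset_union_left, fun v hv => ?_⟩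
      rw [Finset.mem_union, not_or] at hv
      have h1 : Q.ord v z = 0 := by
        by_contra hcon
        exact hv.2 (by simpa using hcon)
      rw [PlaceData.pole_of_ne hz, h1]
      simp
  choose Sz hSz1 hSz2 using hpolefin
  have hLout : ∀ z v, v ∉ Sz z → Lz v z = 0 := by
    intro z v hv
    rw [hLgood v (fun h => hv (hSz1 z h)) z, hSz2 z v hv]
    simp
  set hh : K → ℝ := fun z => ∑ v ∈ Sz z, Q'.wt v * Lz v z with hhh
  have hhS : ∀ z (S' : Finset Q.Pl), Sz z ⊆ S' → ∑ v ∈ S', Q'.wt v * Lz v z = hh z := by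
    intro z S' hS'
    symm
    apply Finset.sum_subset hS'
    intro v _ hv
    rw [hLout z v hv, mul_zero]
  set B₀ : ℝ := H + ∑ v ∈ S₀, Q'.wt v * c v with hB₀
  have hhb : ∀ z ∈ O, |hh z| ≤ B₀ := by
    intro z hz
    have h1 : hh z - ∑ v ∈ Sz z, (Q.wt v : ℝ) * Q.pole v z =
        ∑ v ∈ S₀, Q'.wt v * (Lz v z - Q.pole v z) := by
      have h2 : ∀ v, Q'.wt v * Lz v z - (Q.wt v : ℝ) * Q.pole v z =
          Q'.wt v * (Lz v z - Q.pole v z) := by
        intro v
        have : Q'.wt v = (Q.wt v : ℝ) := rfl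
        rw [this]
        ring
      rw [hhh]
      simp only
      rw [← Finset.sum_sub_distrib]
      simp_rw [h2]
      symm
      apply Finset.sum_subset (hSz1 z)
      intro v _ hv
      rw [hLgood v hv z, sub_self, mul_zero]
    have h2 : |∑ v ∈ S₀, Q'.wt v * (Lz v z - Q.pole v z)| ≤ ∑ v ∈ S₀, Q'.wt v * c v := by
      refine (Finset.abs_sum_le_sum_abs _ _).trans (Finset.sum_le_sum fun v _ => ?_)
      rw [abs_mul, abs_of_pos (hwt v)]
      exact mul_le_mul_of_nonneg_left (hLb v z) (hwt v).le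
    have h3 : 0 ≤ ∑ v ∈ Sz z, (Q.wt v : ℝ) * Q.pole v z := Finset.sum_nonneg fun v _ =>
      mul_nonneg (hwt v).le (by exact_mod_cast PlaceData.pole_nonneg v z)
    have h4 := hH z hz (Sz z)
    rw [abs_le] at h2 ⊢
    constructor <;> linarith [h2.1, h2.2]
  have hmap : ∀ z : K, q.eval z ≠ 0 → ev f ![z, 1] = q.eval z • ![fz z, 1] := by
    intro z hz
    funext i
    rw [ev_affine hf]
    fin_cases i
    · show p.eval z = q.eval z * (p.eval z / q.eval z)
      field_simp
    · show q.eval z = q.eval z * 1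
      rw [mul_one]
  have hAeq : ∀ v, ∀ z ∈ O, (d : ℝ) * Lz v z = log (Q'.V v (q.eval z)) + Lz v (fz z) := by
    intro v z hz
    have hz' := (hO z hz).1
    have h1 := gr_map hd (hfib v) (F4_vL_ne (hvne z))
    rw [F4_ev, hmap z hz'] at h1
    have h2 : vL K (q.eval z • ![fz z, 1]) =
        algebraMap K (AlgebraicClosure K) (q.eval z) • vL K ![fz z, 1] := by
      funext i
      simp [vL]
    rw [h2, gr_smul hd (hfib v) (F4_vL_ne (hvne _)) (by simpa using hz'), hw v] at h1
    exact h1.symm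
  have hprod : ∀ x : K, x ≠ 0 → ∃ S : Finset Q.Pl, ∀ S', S ⊆ S' →
      ∑ v ∈ S', Q'.wt v * log (Q'.V v x) = 0 := by
    intro x hx
    refine ⟨(Q'.fin x hx).toFinset, fun S' hS' => Q'.prod x hx S' fun v hv => ?_⟩
    by_contra hcon
    exact hv (hS' ((Set.Finite.mem_toFinset _).2 hcon))
  have hhf : ∀ z ∈ O, hh (fz z) = d * hh z := by
    intro z hz
    obtain ⟨Sq, hSq⟩ := hprod _ (hO z hz).1
    have h1 := hhS z (Sz z ∪ Sz (fz z) ∪ Sq)
      (Finset.subset_union_left.trans Finset.subset_union_left)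
    have h2 := hhS (fz z) (Sz z ∪ Sz (fz z) ∪ Sq)
      (Finset.subset_union_right.trans Finset.subset_union_left)
    have h3 := hSq (Sz z ∪ Sz (fz z) ∪ Sq) Finset.subset_union_right
    rw [← h1, ← h2, Finset.mul_sum]
    have h4 : ∑ v ∈ Sz z ∪ Sz (fz z) ∪ Sq, (d : ℝ) * (Q'.wt v * Lz v z) =
        ∑ v ∈ Sz z ∪ Sz (fz z) ∪ Sq, Q'.wt v * log (Q'.V v (q.eval z)) +
          ∑ v ∈ Sz z ∪ Sz (fz z) ∪ Sq, Q'.wt v * Lz v (fz z) := by
      rw [← Finset.sum_add_distrib]
      refine Finset.sum_congr rfl fun v _ => ?_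
      rw [← mul_add, ← hAeq v z hz]
      ring
    rw [h4, h3, zero_add]
  have hhz : ∀ n : ℕ, ∀ z ∈ O, |hh z| * (d : ℝ) ^ n ≤ B₀ := by
    intro n
    induction n with
    | zero =>
      intro z hz
      simpa using hhb z hz
    | succ n ih =>
      intro z hz
      have h1 := ih (fz z) (hO z hz).2
      rw [hhf z hz, abs_mul, abs_of_nonneg (by positivity : (0 : ℝ) ≤ d)] at h1
      rw [pow_succ]
      calc |hh z| * ((d : ℝ) ^ n * d) = d * |hh z| * d ^ n := by ring
        _ ≤ B₀ := h1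
  have hh0 : ∀ z ∈ O, hh z = 0 := by
    intro z hz
    by_contra hne
    have hpos : 0 < |hh z| := abs_pos.2 hne
    obtain ⟨n, hn⟩ := pow_unbounded_of_one_lt (B₀ / |hh z|) (by linarith : (1 : ℝ) < d)
    have h1 := hhz n z hz
    rw [div_lt_iff₀ hpos] at hn
    linarith
  -- the pairings
  have hwd1 : ∀ x y : K, wd (![x, 1] : Fin 2 → K) ![y, 1] = x - y := by
    intro x y
    simp [wd]
  have hwdL : ∀ x y : K, x ≠ y → wd (vL K (![x, 1] : Fin 2 → K)) (vL K ![y, 1]) ≠ 0 := by
    intro x y hxy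
    rw [F4_wd, hwd1]
    exact (map_ne_zero _).2 (sub_ne_zero.2 hxy)
  have hGG : ∀ v (x y : K), G d f (w v) ![x, 1] ![y, 1] =
      -log (Q'.V v (x - y)) + Lz v x + Lz v y +
        -1 / (d * ((d : ℝ) - 1)) * log (Q'.V v (rs f d)) := by
    intro v x y
    unfold G gg
    rw [F4_wd, hwd1, hw v, F4_rs, hw v]
    simp only [ta, hLz]
    ring
  have hGsum : ∀ x y, ∃ S : Finset Q.Pl, x ∈ O → y ∈ O → x ≠ y →
      ∀ S', S ⊆ S' → ∑ v ∈ S', Q'.wt v * G d f (w v) ![x, 1] ![y, 1] = 0 := by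
    intro x y
    by_cases hxy : x = y
    · exact ⟨∅, fun _ _ h => absurd hxy h⟩
    obtain ⟨S1, hS1⟩ := hprod (x - y) (sub_ne_zero.2 hxy)
    obtain ⟨S2, hS2⟩ := hprod _ h0
    refine ⟨Sz x ∪ Sz y ∪ (S1 ∪ S2), fun hx hy _ S' hS' => ?_⟩
    have e1 := hhS x S' ((Finset.subset_union_left.trans Finset.subset_union_left).trans hS')
    have e2 := hhS y S' ((Finset.subset_union_right.trans Finset.subset_union_left).trans hS')
    have e3 := hS1 S' ((Finset.subset_union_left.trans Finset.subset_union_right).trans hS')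
    have e4 := hS2 S' ((Finset.subset_union_right.trans Finset.subset_union_right).trans hS')
    rw [hh0 x hx] at e1
    rw [hh0 y hy] at e2
    have h5 : ∑ v ∈ S', Q'.wt v * G d f (w v) ![x, 1] ![y, 1] =
        -(∑ v ∈ S', Q'.wt v * log (Q'.V v (x - y))) + ∑ v ∈ S', Q'.wt v * Lz v x +
          ∑ v ∈ S', Q'.wt v * Lz v y +
          -1 / (d * ((d : ℝ) - 1)) * ∑ v ∈ S', Q'.wt v * log (Q'.V v (rs f d)) := by
      rw [Finset.mul_sum, ← Finset.sum_neg_distrib, ← Finset.sum_add_distrib,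
        ← Finset.sum_add_distrib, ← Finset.sum_add_distrib]
      refine Finset.sum_congr rfl fun v _ => ?_
      rw [hGG v x y]
      ring
    rw [h5, e1, e2, e3, e4]
    ring
  -- the bad places
  have hmszS : ∀ v, 0 < msz d f (w v) → v ∈ S₀ := by
    intro v hv
    by_contra hcon
    have h1 := hfib v
    have h2 : msz d f (w v) ≤ 0 := by
      unfold msz
      rw [hr0 v hcon] at h1 ⊢
      exact mm_good hd h1 (hSs v hcon)
    linarith
  have hpos : ∀ v, ¬ 0 < msz d f (w v) → ∀ x y, x ≠ y → 0 ≤ G d f (w v) ![x, 1] ![y, 1] :=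
    fun v hv x y hxy =>
      gg_nonneg d hd _ (w v) (hna v) _ _ (hfib v) (not_lt.1 hv) (hwdL x y hxy)
  by_cases hbad : ∃ v₀, 0 < msz d f (w v₀)
  · -- a bad place: the number of points is bounded
    obtain ⟨v₀, hv₀⟩ := hbad
    set B := S₀.filter fun v => 0 < msz d f (w v) with hB
    have hv₀B : v₀ ∈ B := Finset.mem_filter.2 ⟨hmszS v₀ hv₀, hv₀⟩
    have hposB : ∀ v, v ∉ B → ∀ x y, x ≠ y → 0 ≤ G d f (w v) ![x, 1] ![y, 1] := by
      intro v hv
      exact hpos v fun h => hv (Finset.mem_filter.2 ⟨hmszS v h, h⟩)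
    obtain ⟨M, c', hc', Hgain⟩ := gainNA.{u} d hd
    haveI : Nonempty {v // v ∈ B} := ⟨⟨v₀, hv₀B⟩⟩
    have hmsz : ∀ t : {v // v ∈ B}, 0 < msz d f (w t.1) := fun t => (Finset.mem_filter.1 t.2).2
    have hcount : ∀ P : Finset K, (∀ x ∈ P, x ∈ O) → (P.card : ℝ) ≤
        M * d * (1 + 2 / c' * Fintype.card {v // v ∈ B} * Nat.log d P.card) := by
      intro P hP
      choose Sf hSf using hGsum
      set S : Finset Q.Pl := B ∪ (P.biUnion fun x => P.biUnion fun y => Sf x y) with hS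
      have hSsum : ∀ x ∈ P, ∀ y ∈ P, x ≠ y →
          ∑ v ∈ S, Q'.wt v * G d f (w v) ![x, 1] ![y, 1] = 0 := by
        intro x hx y hy hxy
        refine hSf x y (hP x hx) (hP y hy) hxy S ?_
        intro v hv
        rw [hS, Finset.mem_union, Finset.mem_biUnion]
        exact Or.inr ⟨x, hx, Finset.mem_biUnion.2 ⟨y, hy, hv⟩⟩
      have hglob' : ∀ x ∈ P, ∀ y ∈ P, x ≠ y →
          ∑ t : {v // v ∈ B}, Q'.wt t.1 * G d f (w t.1) ![x, 1] ![y, 1] ≤ 0 := by
        intro x hx y hy hxy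
        rw [← hSsum x hx y hy hxy]
        rw [Finset.sum_coe_sort B (fun v => Q'.wt v * G d f (w v) ![x, 1] ![y, 1])]
        apply Finset.sum_le_sum_of_subset_of_nonneg Finset.subset_union_left
        intro v _ hv
        exact mul_nonneg (hwt v).le (hposB v hv x y hxy)
      exact count_zero hd (fun t : {v // v ∈ B} => Q'.wt t.1 * msz d f (w t.1))
        (fun t => mul_pos (hwt t.1) (hmsz t))
        (fun t x y => Q'.wt t.1 * G d f (w t.1) ![x, 1] ![y, 1]) hc' P
        (by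
          intro t n x hxinj hxX
          have h1 := lossNA d hd _ (w t.1) (hna _) (fL K f) (fun i => (hf i).map _)
            (F4_rs_ne h0) n (fun j => vL K ![x j, 1]) (fun j => F4_vL_ne (hvne _)) (by
              intro i j hij
              exact hwdL _ _ (fun h => hij (hxinj h)))
          have h2 := mul_le_mul_of_nonneg_left h1 (hwt t.1).le
          rw [Finset.mul_sum] at h2
          simp_rw [Finset.mul_sum] at h2
          refine le_trans (le_of_eq ?_) h2
          unfold msz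
          ring)
        (M := M) (by
          intro t
          obtain ⟨cell, hcell⟩ := Hgain _ (w t.1) (hna _) _ _ (hfib t.1) (hmsz t)
          refine ⟨fun x => cell (vL K ![x, 1]), ?_⟩
          intro x hx y hy hxy hcxy
          have h1 := hcell (vL K ![x, 1]) (vL K ![y, 1]) (hwdL x y hxy) hcxy
          have h2 := mul_le_mul_of_nonneg_left h1 (hwt t.1).le
          refine le_trans (le_of_eq ?_) h2
          unfold msz
          ring)
        hglob'
    set C₀ : ℝ := M * d + 2 / c' + 1 with hC₀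
    have hC₀pos : 0 < C₀ := by positivity
    obtain ⟨C', hC', Hsolve⟩ := solve_bound hC₀pos 1 le_rfl
    set N : ℝ := (Fintype.card {v // v ∈ B} : ℝ) + 1 with hN
    have hN1 : 1 ≤ N := by
      rw [hN]
      have : (0 : ℝ) ≤ Fintype.card {v // v ∈ B} := Nat.cast_nonneg _
      linarith
    obtain ⟨n, hn⟩ := exists_nat_gt (C' * N * log (1 + N))
    obtain ⟨P, hPO, hPc⟩ := hinf.exists_subset_card_eq n
    have h1 : (P.card : ℝ) ≤ C₀ * (1 + C₀ * N * Nat.log d P.card) := by
      refine (hcount P fun x hx => hPO hx).trans ?_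
      have e1 : (M * d : ℝ) ≤ C₀ := by
        rw [hC₀]
        have : 0 < 2 / c' := by positivity
        linarith
      have e2 : 2 / c' ≤ C₀ := by
        rw [hC₀]
        have : (0 : ℝ) ≤ M * d := by positivity
        linarith
      have e3 : (Fintype.card {v // v ∈ B} : ℝ) ≤ N := by
        rw [hN]
        linarith
      gcongr
    have h2 := Hsolve d P.card N N hd hN1 (by linarith) (by linarith) h1
    rw [hPc] at h2
    linarith
  · -- no bad place: the map is isotrivial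
    have hbad := not_exists.1 hbad
    have hG0 : ∀ x ∈ O, ∀ y ∈ O, x ≠ y → ∀ v, G d f (w v) ![x, 1] ![y, 1] = 0 := by
      intro x hx y hy hxy v
      obtain ⟨S, hS⟩ := hGsum x y
      have h1 := hS hx hy hxy (insert v S) (Finset.subset_insert _ _)
      have h2 := (Finset.sum_eq_zero_iff_of_nonneg (fun v' _ =>
        mul_nonneg (hwt v').le (hpos v' (hbad v') x y hxy))).1 h1 v (Finset.mem_insert_self _ _)
      rcases mul_eq_zero.1 h2 with h3 | h3
      · exact absurd h3 (hwt v).ne'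
      · exact h3
    obtain ⟨t3, ht3O, ht3⟩ := hinf.exists_subset_card_eq 3
    obtain ⟨x0, x1, x2, h01, h02, h12, rfl⟩ := Finset.card_eq_three.1 ht3
    have hx0 : x0 ∈ O := ht3O (by simp)
    have hx1 : x1 ∈ O := ht3O (by simp)
    have hx2 : x2 ∈ O := ht3O (by simp)
    have hcr : ∀ x ∈ O, x ≠ x2 → ∃ s : k, algebraMap k K s =
        ((x - x0) * (x1 - x2)) / ((x - x2) * (x1 - x0)) := by
      intro x hx hxx2
      by_cases hxx0 : x = x0
      · refine ⟨0, ?_⟩
        rw [hxx0]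
        simp
      have n1 : x - x0 ≠ 0 := sub_ne_zero.2 hxx0
      have n2 : x1 - x2 ≠ 0 := sub_ne_zero.2 h12
      have n3 : x - x2 ≠ 0 := sub_ne_zero.2 hxx2
      have n4 : x1 - x0 ≠ 0 := sub_ne_zero.2 h01.symm
      have hne : ((x - x0) * (x1 - x2)) / ((x - x2) * (x1 - x0)) ≠ 0 :=
        div_ne_zero (mul_ne_zero n1 n2) (mul_ne_zero n3 n4)
      apply Q.const _ hne
      intro v
      have g1 := hG0 x hx x0 hx0 hxx0 v
      have g2 := hG0 x1 hx1 x2 hx2 h12 v
      have g3 := hG0 x hx x2 hx2 hxx2 v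
      have g4 := hG0 x1 hx1 x0 hx0 h01.symm v
      rw [hGG] at g1 g2 g3 g4
      have h5 := pfQ_log Q v _ hne
      have m1 : Q'.V v (x - x0) ≠ 0 := (Q'.V v).ne_zero n1
      have m2 : Q'.V v (x1 - x2) ≠ 0 := (Q'.V v).ne_zero n2
      have m3 : Q'.V v (x - x2) ≠ 0 := (Q'.V v).ne_zero n3
      have m4 : Q'.V v (x1 - x0) ≠ 0 := (Q'.V v).ne_zero n4
      have h6 : log (Q'.V v (((x - x0) * (x1 - x2)) / ((x - x2) * (x1 - x0)))) =
          log (Q'.V v (x - x0)) + log (Q'.V v (x1 - x2)) - (log (Q'.V v (x - x2)) +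
            log (Q'.V v (x1 - x0))) := by
        rw [map_div₀, map_mul, map_mul, log_div (mul_ne_zero m1 m2) (mul_ne_zero m3 m4),
          log_mul m1 m2, log_mul m3 m4]
      have h7 : (Q.ord v (((x - x0) * (x1 - x2)) / ((x - x2) * (x1 - x0))) : ℝ) = 0 := by
        have h8 : log (Q'.V v (((x - x0) * (x1 - x2)) / ((x - x2) * (x1 - x0)))) =
          -(Q.ord v (((x - x0) * (x1 - x2)) / ((x - x2) * (x1 - x0))) : ℝ) := h5
        rw [h6] at h8
        linarith
      exact le_of_eq (by exact_mod_cast h7.symm)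
    have hpne : p - Polynomial.C x2 * q ≠ 0 := by
      intro h0
      have h3 : p = Polynomial.C x2 * q := sub_eq_zero.mp h0
      have hcop' := hcop
      rw [h3] at hcop'
      have h4 : IsUnit q := by
        obtain ⟨a, b, hab⟩ := hcop'
        apply IsUnit.of_mul_eq_one (a * Polynomial.C x2 + b)
        rw [← hab]
        ring
      have := Polynomial.natDegree_eq_zero_of_isUnit h4
      omega
    have hfin : ({x2} ∪ {z | (p - Polynomial.C x2 * q).IsRoot z} : Set K).Finite :=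
      (Set.finite_singleton x2).union (Polynomial.finite_setOf_isRoot hpne)
    obtain ⟨U, hUO, hUc⟩ := (hinf.diff hfin).exists_subset_card_eq (2 * d + 1)
    have hU : ∀ z ∈ U, z ∈ O ∧ z ≠ x2 ∧ fz z ≠ x2 := by
      intro z hz
      have h1 := hUO hz
      refine ⟨h1.1, fun h => h1.2 (Or.inl h), fun h => h1.2 (Or.inr ?_)⟩
      have h2 := (hO z h1.1).1
      have h3 : p.eval z / q.eval z = x2 := h
      rw [div_eq_iff h2] at h3
      show (p - Polynomial.C x2 * q).eval z = 0
      rw [Polynomial.eval_sub, Polynomial.eval_mul, Polynomial.eval_C, h3, sub_self]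
    apply hiso
    refine conj_of_const p q d hpd hq.le x0 x1 x2 h01 h02 h12 (U ∪ U.image fz) U ?_ ?_
      (by omega)
    · intro x hx
      have h1 : x ∈ O ∧ x ≠ x2 := by
        rcases Finset.mem_union.1 hx with h | h
        · exact ⟨(hU x h).1, (hU x h).2.1⟩
        · obtain ⟨z, hz, rfl⟩ := Finset.mem_image.1 h
          exact ⟨(hO z (hU z hz).1).2, (hU z hz).2.2⟩
      exact ⟨h1.2, hcr x h1.1 h1.2⟩
    · intro x hx
      exact ⟨Finset.mem_union_left _ hx, (hO x (hU x hx).1).1,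
        Finset.mem_union_right _ (Finset.mem_image_of_mem fz hx)⟩

end Pool.Agent.Q15.OP
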